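import Mathlib

namespace Pool.Agent.Results.MP_2b7cf0_al.No

open Subgroup

/-- The power graph. -/
def Pow (G : Type*) [Group G] : SimpleGraph G :=
  SimpleGraph.fromRel fun x y => ∃ m : ℤ, x = y ^ m

/-- The commuting graph. -/
def Com (G : Type*) [Group G] : SimpleGraph G :=
  SimpleGraph.fromRel fun x y => x * y = y * x

variable {G H : Type*} [Group G] [Group H] [Finite G] [Finite H]

def R (x y : G) : Prop := x ∈ zpowers y ∨ y ∈ zpowers x

omit [Finite G] in
theorem R.comm {x y : G} (h : R x y) : Commute x y := by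
  rcases h with ⟨k, rfl⟩ | ⟨k, rfl⟩
  · exact (Commute.refl y).zpow_left k
  · exact (Commute.refl x).zpow_right k

def N (S : Set G) : Set G := {y | ∀ s ∈ S, R s y}

theorem back {x y : G} (h : x ∈ zpowers y) (ho : orderOf y ≤ orderOf x) : y ∈ zpowers x := by
  rw [eq_of_le_of_card_ge (zpowers_le.2 h) (by simpa using ho)]
  exact mem_zpowers y

theorem exmax (u : G) : ∃ x, u ∈ zpowers x ∧ ∀ y, R x y → y ∈ zpowers x := by
  obtain ⟨x, hx, hm⟩ := Set.exists_max_image {x | u ∈ zpowers x} orderOf (Set.toFinite _)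
    ⟨u, mem_zpowers u⟩
  refine ⟨x, hx, fun y h => h.elim (fun h => back h (hm y (zpowers_le.2 h hx))) id⟩

theorem ord_p {u : G} {p : ℕ} (h : p ∣ orderOf u) : orderOf (u ^ (orderOf u / p)) = p :=
  orderOf_pow_orderOf_div (orderOf_pos u).ne' h

theorem arith {m g a p : ℕ} (h1 : m + g ∣ a * m + g) (h2 : m + g ∣ a * m * p) : m + g ∣ p * m := by
  have h3 : m + g ∣ a * m * p + p * g := by
    have := h1.mul_left p
    rwa [show p * (a * m + g) = a * m * p + p * g by ring] at this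
  have h4 := (Nat.dvd_add_right h2).1 h3
  have h5 : m + g ∣ p * m + p * g := ⟨p, by ring⟩
  exact (Nat.dvd_add_left h4).1 h5

variable (f : G ≃ H) (hf : ∀ x y, R x y ↔ Commute (f x) (f y))
include hf

omit [Finite G] [Finite H] in
theorem cardN (S : Set G) : (N S).ncard = Nat.card (centralizer (f '' S)) := by
  refine Nat.card_congr (f.subtypeEquiv fun y => ?_)
  simp only [N, Set.mem_ofPred_eq, mem_centralizer_iff, Set.forall_mem_image, hf]
  rfl

omit [Finite G] [Finite H] in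
theorem dvdN {S T : Set G} (h : S ⊆ T) : (N T).ncard ∣ (N S).ncard := by
  rw [cardN f hf, cardN f hf]
  exact card_dvd_of_le (centralizer_le (Set.image_mono h))

theorem eppo (u : G) {p q : ℕ} (hp : p.Prime) (hq : q.Prime) (h1 : p ∣ orderOf u)
    (h2 : q ∣ orderOf u) : p = q := by
  by_contra hne
  obtain ⟨x, hu, hx⟩ := exmax u
  replace h1 := h1.trans (orderOf_dvd_of_mem_zpowers hu)
  replace h2 := h2.trans (orderOf_dvd_of_mem_zpowers hu)
  let Γ : Set G := {y | y ∈ zpowers x ∧ x ∈ zpowers y}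
  have hN : ∀ {p : ℕ}, p.Prime → ∀ y, (R x y ∧ R (x ^ p) y) ↔ y ∈ zpowers (x ^ p) ∨ y ∈ Γ := by
    intro p hp y
    constructor
    · rintro ⟨h, h' | h'⟩
      · obtain ⟨k, rfl⟩ := hx y h
        by_cases hk : (p : ℤ) ∣ k
        · obtain ⟨j, rfl⟩ := hk
          exact Or.inl ⟨j, by simp [zpow_mul]⟩
        · obtain ⟨a, b, hab⟩ := ((Nat.prime_iff_prime_int.1 hp).irreducible.coprime_iff_not_dvd).2 hk
          refine Or.inr ⟨⟨k, rfl⟩, ?_⟩
          have : x = (x ^ p) ^ a * (x ^ k) ^ b := by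
            rw [← zpow_natCast, ← zpow_mul, ← zpow_mul, ← zpow_add, mul_comm _ a, mul_comm k, hab,
              zpow_one]
          have h3 := mul_mem (zpow_mem h' a) (zpow_mem (mem_zpowers (x ^ k)) b)
          rwa [← this] at h3
      · exact Or.inl h'
    · rintro (h | h)
      · exact ⟨Or.inr (zpowers_le.2 (npow_mem_zpowers x p) h), Or.inr h⟩
      · exact ⟨Or.inr h.1, Or.inl (pow_mem h.2 p)⟩
  have hD : ∀ {p : ℕ}, p.Prime → p ∣ orderOf x → Disjoint (zpowers (x ^ p) : Set G) Γ := by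
    intro p hp h
    refine Set.disjoint_left.2 fun y h1 h2 => ?_
    have := mem_zpowers_pow_iff.1 (zpowers_le.2 h1 h2.2)
    rw [Nat.gcd_eq_left h] at this
    exact hp.one_lt.ne' this
  let M := zpowers (x ^ p) ⊓ zpowers (x ^ q)
  have h3 : N {x, x ^ p, x ^ q} = (M : Set G) ∪ Γ := by
    ext y
    have a := hN hp y
    have b := hN hq y
    simp only [N, Set.mem_ofPred_eq, Set.mem_insert_iff, Set.mem_singleton_iff, forall_eq_or_imp,
      forall_eq, Set.mem_union, SetLike.mem_coe, M, mem_inf]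
    tauto
  have c3 : (N {x, x ^ p, x ^ q}).ncard = Nat.card M + Γ.ncard := by
    rw [h3, Set.ncard_union_eq ((hD hp h1).mono_left fun y hy => hy.1)]
    rfl
  have c1 : (N {x}).ncard = orderOf x := by
    rw [← Nat.card_zpowers]
    congr 1
    ext y
    simp only [N, Set.mem_ofPred_eq, Set.mem_singleton_iff, forall_eq]
    exact ⟨hx y, Or.inr⟩
  have key : ∀ {r : ℕ}, r.Prime → r ∣ orderOf x → M ≤ zpowers (x ^ r) →
      x ^ r ∈ ({x, x ^ p, x ^ q} : Set G) → Nat.card M + Γ.ncard ∣ r * Nat.card M := by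
    intro r hr h hM hm
    obtain ⟨a, ha⟩ := card_dvd_of_le hM
    have h2 : N {x, x ^ r} = (zpowers (x ^ r) : Set G) ∪ Γ := by
      ext y
      simpa [N] using hN hr y
    have d1 := dvdN f hf (S := {x, x ^ r}) (T := {x, x ^ p, x ^ q})
      (Set.insert_subset (by simp) (by simpa using hm))
    have d2 := dvdN f hf (S := {x}) (T := {x, x ^ p, x ^ q}) (by simp)
    rw [h2, Set.ncard_union_eq (hD hr h), c3] at d1
    rw [c1, c3, ← Nat.div_mul_cancel h, ← orderOf_pow_of_dvd hr.ne_zero h, ← Nat.card_zpowers, ha,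
      mul_comm _ a] at d2
    refine arith (a := a) ?_ d2
    rwa [mul_comm, ← ha]
  have k1 := key hp h1 inf_le_left (by simp)
  have k2 := key hq h2 inf_le_right (by simp)
  have k3 := Nat.dvd_gcd k1 k2
  rw [Nat.gcd_mul_right, (Nat.coprime_primes hp hq).2 hne, one_mul] at k3
  have := Nat.le_of_dvd Nat.card_pos k3
  have h0 : 0 < Γ.ncard := (Set.ncard_pos (Set.toFinite _)).2 ⟨x, mem_zpowers x, mem_zpowers x⟩
  omega

theorem cent {u c : G} (h : Commute u c) {p q : ℕ} (hp : p.Prime) (hq : q.Prime)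
    (h1 : p ∣ orderOf u) (h2 : q ∣ orderOf c) : q = p := by
  by_contra hne
  have := (h.pow_pow (orderOf u / p) (orderOf c / q)).orderOf_mul_eq_mul_orderOf_of_coprime
    (by rw [ord_p h1, ord_p h2]; exact (Nat.coprime_primes hp hq).2 (Ne.symm hne))
  rw [ord_p h1, ord_p h2] at this
  exact hne (eppo f hf _ hq hp (this ▸ dvd_mul_left _ _) (this ▸ dvd_mul_right _ _))

theorem ppow {u c : G} (h : Commute u c) {p : ℕ} (hp : p.Prime) (h1 : p ∣ orderOf u) :
    ∃ k, orderOf c = p ^ k :=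
  ⟨_, Nat.eq_prime_pow_of_unique_prime_dvd (orderOf_pos c).ne' fun hq h2 => cent f hf h hp hq h1 h2⟩

theorem syl {u : G} {p : ℕ} [hp : Fact p.Prime] (h1 : p ∣ orderOf u) :
    ∃ S : Sylow p G, ∀ c, Commute u c → c ∈ S := by
  have : IsPGroup p (centralizer {u}) := IsPGroup.iff_orderOf.2 fun c => by
    rw [← orderOf_coe]
    exact ppow f hf (mem_centralizer_singleton_iff.1 c.2).symm hp.1 h1
  obtain ⟨S, hS⟩ := this.exists_le_sylow
  exact ⟨S, fun c hc => hS (mem_centralizer_singleton_iff.2 hc.symm)⟩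

theorem exu {v : G} {p : ℕ} [hp : Fact p.Prime] (h1 : p ∣ orderOf v) :
    ∃ (u : G) (S : Sylow p G), p ∣ orderOf u ∧ ∀ y ∈ S, R u y := by
  have pr : ∀ u : G, u ≠ 1 → ∃ r, r.Prime ∧ r ∣ orderOf u := fun u hu =>
    Nat.exists_prime_and_dvd (by simpa using hu)
  by_cases h0 : f.symm 1 = 1
  · obtain ⟨T⟩ : Nonempty (Sylow p H) := inferInstance
    have hc : Nat.card G = Nat.card H := Nat.card_congr f
    have hT : p ∣ Nat.card T := T.dvd_card_of_dvd_card (hc ▸ h1.trans (orderOf_dvd_natCard v))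
    have : Nontrivial T := Finite.one_lt_card_iff_nontrivial.1
      (hp.1.one_lt.trans_le (Nat.le_of_dvd Nat.card_pos hT))
    have := T.2.center_nontrivial
    obtain ⟨⟨w, hw⟩, hw1⟩ := exists_ne (1 : center T)
    have hw2 : (w : H) ≠ 1 := fun h => hw1 (Subtype.ext (Subtype.ext h))
    have hu : f.symm w ≠ 1 := fun h => hw2 (f.symm.injective (h.trans h0.symm))
    obtain ⟨x, hx, hm⟩ := exmax (f.symm w)
    have c1 : (N {x}).ncard = orderOf x := by
      rw [← Nat.card_zpowers]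
      congr 1
      ext y
      simp only [N, Set.mem_ofPred_eq, Set.mem_singleton_iff, forall_eq]
      exact ⟨hm y, Or.inr⟩
    have hpw : p ∣ orderOf (w : H) := by
      obtain ⟨k, hk⟩ := IsPGroup.iff_orderOf.1 T.2 w
      rw [orderOf_coe, hk]
      refine dvd_pow_self _ ?_
      rintro rfl
      exact hw2 (by simpa using hk)
    have hpx : p ∣ orderOf x := by
      rw [← c1, cardN f hf]
      refine hpw.trans (orderOf_dvd_natCard _ ?_)
      rintro _ ⟨z, hz, rfl⟩
      rw [Set.mem_singleton_iff.1 hz]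
      simpa using ((hf x (f.symm w)).1 (Or.inr hx)).eq
    obtain ⟨r, hr, hru⟩ := pr _ hu
    rw [eppo f hf x hr hp.1 (hru.trans (orderOf_dvd_of_mem_zpowers hx)) hpx] at hru
    obtain ⟨S, hS⟩ := syl f hf hru
    refine ⟨_, S, hru, ?_⟩
    have : N {f.symm w} = (S : Set G) := by
      refine Set.eq_of_subset_of_ncard_le (fun y hy => hS y (hy _ rfl).comm) ?_
      rw [cardN f hf]
      calc (S : Set G).ncard = Nat.card S := rfl
        _ = Nat.card T := by rw [S.card_eq_multiplicity, T.card_eq_multiplicity, hc]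
        _ ≤ _ := Subgroup.card_le_of_le (H := (T : Subgroup H)) fun t ht => ?_
      rintro _ ⟨_, rfl, rfl⟩
      simpa using (congrArg Subtype.val (mem_center_iff.1 hw ⟨t, ht⟩)).symm
    intro y hy
    exact (this.ge hy) _ rfl
  · have hR : ∀ y, R (f.symm 1) y := fun y => (hf _ _).2 (by simp)
    obtain ⟨r, hr, hru⟩ := pr _ h0
    rw [cent f hf (hR v).comm.symm hp.1 hr h1 hru] at hru
    exact ⟨_, default, hru, fun y _ => hR y⟩

theorem uniq {v w : G} {p : ℕ} [hp : Fact p.Prime] (h : Commute w v) (hv : orderOf v = p)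
    (hw : orderOf w = p) : v ∈ zpowers w := by
  obtain ⟨u, S, hu, hS⟩ := exu f hf hw.symm.dvd
  obtain ⟨P, hP⟩ := syl f hf hw.symm.dvd
  obtain ⟨g, rfl⟩ := MulAction.exists_smul_eq G P S
  have key : ∀ a ∈ P, orderOf a = p → MulAut.conj g a ∈ zpowers (u ^ (orderOf u / p)) := by
    intro a ha ho
    have ho' : orderOf (MulAut.conj g a) = p := (MulEquiv.orderOf_eq _ _).trans ho
    have h1 : MulAut.conj g a ∈ zpowers u :=
      (hS _ (Subgroup.smul_mem_pointwise_smul a (MulAut.conj g) _ ha)).elim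
        (fun h => back h (ho' ▸ Nat.le_of_dvd (orderOf_pos u) hu)) id
    obtain ⟨i, hi⟩ := (mem_powers_iff_mem_zpowers).2 h1
    have h2 : u ^ (i * p) = 1 := by
      have hi' : u ^ i = MulAut.conj g a := hi
      rw [pow_mul, hi', ← ho', pow_orderOf_eq_one]
    have h3 := orderOf_dvd_of_pow_eq_one h2
    rw [← Nat.div_mul_cancel hu] at h3
    obtain ⟨j, rfl⟩ := Nat.dvd_of_mul_dvd_mul_right hp.1.pos h3
    rw [← hi]
    show u ^ _ ∈ _
    rw [pow_mul]
    exact npow_mem_zpowers _ j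
  have h1 := back (key w (hP w (Commute.refl w)) hw)
    (by rw [ord_p hu, MulEquiv.orderOf_eq, hw])
  obtain ⟨k, hk⟩ := zpowers_le.2 h1 (key v (hP v h) hv)
  refine ⟨k, (MulAut.conj g).injective ?_⟩
  rw [← hk]
  simp only [map_zpow]

theorem chain (x : G) (n : ℕ) : ∀ y, orderOf y = n → Commute x y → n ∣ orderOf x →
    y ∈ zpowers x := by
  induction n using Nat.strong_induction_on with
  | _ n ih =>
  rintro y rfl h hd
  by_cases hy : y = 1
  · simp [hy]
  obtain ⟨p, hp, hpy⟩ := Nat.exists_prime_and_dvd (n := orderOf y) (by simpa using hy)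
  have := Fact.mk hp
  have hpx := hpy.trans hd
  have ho := orderOf_pow_of_dvd hp.ne_zero hpy
  obtain ⟨k, hk⟩ := (mem_powers_iff_mem_zpowers).2 (ih _ (Nat.div_lt_self (orderOf_pos y) hp.one_lt)
    (y ^ p) ho (h.pow_right p) ((Nat.div_dvd_of_dvd hpy).trans hd))
  have hk' : x ^ k = y ^ p := hk
  have h1 : x ^ (k * (orderOf x / p)) = 1 := by
    rw [pow_mul, hk', ← pow_mul, Nat.mul_div_cancel' hpx, ← orderOf_dvd_iff_pow_eq_one]
    exact hd
  have h2 := orderOf_dvd_of_pow_eq_one h1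
  nth_rw 1 [← Nat.mul_div_cancel' hpx] at h2
  obtain ⟨j, rfl⟩ := Nat.dvd_of_mul_dvd_mul_right
    (Nat.div_pos (Nat.le_of_dvd (orderOf_pos x) hpx) hp.pos) h2
  have hc : Commute y (x ^ j)⁻¹ := (h.symm.pow_right j).inv_right
  have h3 : (y * (x ^ j)⁻¹) ^ p = 1 := by
    rw [hc.mul_pow, ← hk', inv_pow, ← pow_mul, mul_comm j, mul_inv_cancel]
  have h4 : y * (x ^ j)⁻¹ ∈ zpowers x := by
    by_cases h5 : y * (x ^ j)⁻¹ = 1
    · simp [h5]
    · exact zpowers_le.2 (npow_mem_zpowers x _) (uniq f hf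
        ((h.mul_right ((Commute.refl x).pow_right j).inv_right).pow_left _)
        (orderOf_eq_prime h3 h5) (ord_p hpx))
  simpa using mul_mem h4 (npow_mem_zpowers x j)

theorem fin {x y : G} (h : Commute x y) : R x y := by
  by_cases hy : y = 1
  · exact Or.inr (by simp [hy])
  obtain ⟨p, hp, hpy⟩ := Nat.exists_prime_and_dvd (n := orderOf y) (by simpa using hy)
  obtain ⟨a, ha⟩ := ppow f hf h.symm hp hpy
  obtain ⟨b, hb⟩ := ppow f hf (Commute.refl y) hp hpy
  rcases le_total a b with hab | hab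
  · exact Or.inl (chain f hf y _ x rfl h.symm (by rw [ha, hb]; exact pow_dvd_pow p hab))
  · exact Or.inr (chain f hf x _ y rfl h (by rw [ha, hb]; exact pow_dvd_pow p hab))

omit [Finite G] hf in
theorem adj (x y : G) : (Pow G).Adj x y ↔ x ≠ y ∧ R x y := by
  simp [Pow, R, mem_zpowers_iff, eq_comm]

omit [Finite G] hf in
theorem adj' (x y : G) : (Com G).Adj x y ↔ x ≠ y ∧ Commute x y := by
  simp [Com, commute_iff_eq, eq_comm]

omit hf

theorem result (G₁ G₂ : Type*) [Group G₁] [Group G₂] [Finite G₁] [Finite G₂]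
    (e : Pow G₁ ≃g Com G₂) : Pow G₁ = Com G₁ := by
  have hf : ∀ x y, R x y ↔ Commute (e.toEquiv x) (e.toEquiv y) := by
    intro x y
    by_cases h : x = y
    · subst h
      exact ⟨fun _ => Commute.refl _, fun _ => Or.inl (mem_zpowers x)⟩
    · have := e.map_adj_iff (v := x) (w := y)
      rw [adj, adj'] at this
      exact ⟨fun h' => (this.2 ⟨h, h'⟩).2, fun h' => (this.1 ⟨e.injective.ne h, h'⟩).2⟩
  ext x y
  rw [adj, adj']
  exact and_congr_right fun _ => ⟨R.comm, fin e.toEquiv hf⟩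

end Pool.Agent.Results.MP_2b7cf0_al.No
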